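import Mathlib
import Pool.Agent.Helper14.ZeroSum.MainBound

namespace Pool.Agent.Results.MP_f5b580_co.AllOddWeights

open Finset Pool.Agent.Helper14.ZeroSum

/-- `x` is `r`-admissible: no sum of `r` entries with distinct indices is zero. -/
def Admissible (n r : ℕ) (x : Fin n → ℝ) : Prop :=
  ∀ S : Finset (Fin n), S.card = r → ∑ i ∈ S, x i ≠ 0

/-- `Z(x)`: the number of index sets `B` (the empty one included) with `∑_{i ∈ B} x_i = 0`. -/
noncomputable def Z (n : ℕ) (x : Fin n → ℝ) : ℕ :=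
  Nat.card {B : Finset (Fin n) // ∑ i ∈ B, x i = 0}

theorem Z_eq_cnt (n : ℕ) (x : Fin n → ℝ) : Z n x = cnt x Finset.univ {0} := by
  classical
  unfold Z cnt
  rw [Nat.card_eq_fintype_card, Fintype.card_subtype]
  simp

/-- the upper bound, as a dichotomy -/
theorem upper_dichotomy (n k r : ℕ) (hrk : r + k = n + 1) (hk : 1 ≤ k)
    (x : Fin n → ℝ) (hx : Admissible n r x) :
    Z n x ≤ n.choose (n / 2) ∨ 4 ^ k * Z n x ≤ 2 ^ n * (1 + (2 * k - 1).choose k) := by
  classical
  rw [Z_eq_cnt]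
  set I : Finset (Fin n) := Finset.univ.filter (fun i => x i ≠ 0) with hI
  set O : Finset (Fin n) := Finset.univ.filter (fun i => ¬ (x i ≠ 0)) with hO
  have hdis : Disjoint I O := Finset.disjoint_filter_filter_not _ _ _
  have hun : I ∪ O = Finset.univ := Finset.filter_union_filter_not_eq _ _
  have hcard : I.card + O.card = n := by
    rw [← Finset.card_union_of_disjoint hdis, hun, Finset.card_univ, Fintype.card_fin]
  have hO0 : ∀ i ∈ O, x i = 0 := fun i hi => not_not.mp (Finset.mem_filter.mp hi).2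
  have hI0 : ∀ i ∈ I, x i ≠ 0 := fun i hi => (Finset.mem_filter.mp hi).2
  have hadm : ∀ B ⊆ I, ∑ i ∈ B, x i = 0 → B.card + O.card < r ∨ r < B.card := by
    intro B hB hsB
    by_contra hcon
    push Not at hcon
    obtain ⟨T, hTO, hTc⟩ := Finset.exists_subset_card_eq
      (show r - B.card ≤ O.card by omega)
    have hBT : Disjoint B T :=
      Finset.disjoint_of_subset_left hB (Finset.disjoint_of_subset_right hTO hdis)
    apply hx (B ∪ T)
    · rw [Finset.card_union_of_disjoint hBT, hTc]; omega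
    · rw [Finset.sum_union hBT, hsB, zero_add]
      exact Finset.sum_eq_zero fun i hi => hO0 i (hTO hi)
  rw [← hun, cnt_zeros x I O hdis hO0]
  by_cases hB : ∃ B ⊆ I, ∑ i ∈ B, x i = 0 ∧ r < B.card
  · left
    obtain ⟨B, hBI, hsB, hcB⟩ := hB
    have := case_large x I O.card r hI0 hadm B hBI hsB hcB
    rwa [hcard] at this
  · right
    push Not at hB
    have := main_bound k hk x I hI0 (fun B hBI hsB => by
      rcases hadm B hBI hsB with h | h
      · omega
      · have := hB B hBI hsB; omega)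
    calc 4 ^ k * (2 ^ O.card * cnt x I {0}) = 2 ^ O.card * (4 ^ k * cnt x I {0}) := by ring
      _ ≤ 2 ^ O.card * (2 ^ I.card * (1 + (2 * k - 1).choose k)) := Nat.mul_le_mul_left _ this
      _ = 2 ^ (I.card + O.card) * (1 + (2 * k - 1).choose k) := by rw [pow_add]; ring
      _ = 2 ^ n * (1 + (2 * k - 1).choose k) := by rw [hcard]

/-- the second bound in exact form, for `2k ≤ n` -/
theorem upper_exact (n k N : ℕ) (hkn : 2 * k ≤ n)
    (h : 4 ^ k * N ≤ 2 ^ n * (1 + (2 * k - 1).choose k)) :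
    N ≤ 2 ^ (n - 2 * k) * (1 + (2 * k - 1).choose k) := by
  have h1 : 2 ^ n = 4 ^ k * 2 ^ (n - 2 * k) := by
    rw [show (4 : ℕ) = 2 ^ 2 by norm_num, ← pow_mul, ← pow_add]
    congr 1
    omega
  rw [h1, mul_assoc] at h
  exact Nat.le_of_mul_le_mul_left h (by positivity)

/-- for `2k > n` the second bound is weaker than the first. -/
theorem upper_weak (n k N : ℕ) (hk : 1 ≤ k) (hkn : n < 2 * k)
    (h : 4 ^ k * N ≤ 2 ^ n * (1 + (2 * k - 1).choose k)) : N ≤ n.choose (n / 2) := by
  have h1 : 1 ≤ (2 * k - 1).choose k := Nat.choose_pos (by omega)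
  have h2 : (4 : ℝ) ^ k * N ≤ 2 ^ n * (lam k * 4 ^ k) := by
    rw [lam_four_pow hk]
    have h3 : ((4 ^ k * N : ℕ) : ℝ) ≤ ((2 ^ n * (1 + (2 * k - 1).choose k) : ℕ) : ℝ) := by
      exact_mod_cast h
    push_cast at h3
    have h4 : (1 : ℝ) ≤ ((2 * k - 1).choose k : ℝ) := by exact_mod_cast h1
    have h5 : (0 : ℝ) < 2 ^ n := by positivity
    nlinarith
  have h6 : (N : ℝ) ≤ 2 ^ n * lam k := by
    have h7 : (0 : ℝ) < 4 ^ k := by positivity
    have h8 : (4 : ℝ) ^ k * N ≤ 4 ^ k * (2 ^ n * lam k) := by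
      calc (4 : ℝ) ^ k * N ≤ 2 ^ n * (lam k * 4 ^ k) := h2
        _ = _ := by ring
    exact le_of_mul_le_mul_left h8 h7
  have h9 : lam k ≤ lam ((n + 1) / 2) := lam_antitone (by omega)
  have h10 : (N : ℝ) ≤ (n.choose (n / 2) : ℝ) := by
    rw [middle_eq_lam]
    exact h6.trans (mul_le_mul_of_nonneg_left h9 (by positivity))
  exact_mod_cast h10

/-- the vector with `⌊n/2⌋` entries `-1` and `⌈n/2⌉` entries `1` -/
theorem lower_odd (n r : ℕ) (hr : Odd r) :
    ∃ x : Fin n → ℝ, Admissible n r x ∧ Z n x = n.choose (n / 2) := by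
  classical
  obtain ⟨N, _, hN⟩ := Finset.exists_subset_card_eq
    (show n / 2 ≤ (Finset.univ : Finset (Fin n)).card by simp; omega)
  have hsum : ∀ B : Finset (Fin n), ∑ i ∈ B, (if i ∈ N then (-1 : ℝ) else 1) =
      ((B \ N).card : ℝ) - ((B ∩ N).card : ℝ) := by
    intro B
    rw [Finset.sum_ite, Finset.sum_const, Finset.sum_const, Finset.filter_mem_eq_inter,
      Finset.filter_notMem_eq_sdiff]
    simp
    ring
  refine ⟨fun i => if i ∈ N then -1 else 1, ?_, ?_⟩
  · intro S hS h0
    rw [hsum, sub_eq_zero] at h0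
    have h1 : (S \ N).card = (S ∩ N).card := by exact_mod_cast h0
    have h2 := Finset.card_sdiff_add_card_inter S N
    obtain ⟨m, hm⟩ := hr
    omega
  · rw [Z_eq_cnt]
    unfold cnt
    have hcard : (Finset.univ.powersetCard (n / 2) : Finset (Finset (Fin n))).card =
        n.choose (n / 2) := by
      rw [Finset.card_powersetCard, Finset.card_univ, Fintype.card_fin]
    rw [← hcard]
    have hkey : ∀ B : Finset (Fin n), (symmDiff B N).card + (B ∩ N).card =
        (B \ N).card + N.card := by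
      intro B
      have h1 : symmDiff B N = (B \ N) ∪ (N \ B) := rfl
      have h2 : Disjoint (B \ N) (N \ B) := by
        rw [Finset.disjoint_left]
        intro i hi hi2
        exact (Finset.mem_sdiff.mp hi).2 (Finset.mem_sdiff.mp hi2).1
      rw [h1, Finset.card_union_of_disjoint h2]
      have h3 := Finset.card_sdiff_add_card_inter N B
      rw [Finset.inter_comm] at h3
      omega
    apply Finset.card_nbij' (fun B => symmDiff B N) (fun B => symmDiff B N)
    · intro B hB
      simp only [Finset.coe_filter, Finset.mem_powerset, Finset.mem_singleton,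
        Set.mem_ofPred_eq, Finset.mem_coe, Finset.mem_powersetCard] at hB ⊢
      rw [hsum] at hB
      have h0 := hB.2
      rw [sub_eq_zero] at h0
      have h1 : (B \ N).card = (B ∩ N).card := by exact_mod_cast h0
      have := hkey B
      refine ⟨Finset.subset_univ _, ?_⟩
      omega
    · intro B hB
      simp only [Finset.coe_filter, Finset.mem_powerset, Finset.mem_singleton,
        Set.mem_ofPred_eq, Finset.mem_coe, Finset.mem_powersetCard] at hB ⊢
      rw [hsum]
      have := hkey (symmDiff B N)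
      rw [symmDiff_symmDiff_cancel_right] at this
      have h1 : (symmDiff B N \ N).card = (symmDiff B N ∩ N).card := by omega
      refine ⟨Finset.subset_univ _, ?_⟩
      rw [h1, sub_self]
    · intro B _
      exact symmDiff_symmDiff_cancel_right _ _
    · intro B _
      exact symmDiff_symmDiff_cancel_right _ _

theorem cnt_ones {n : ℕ} (x : Fin n → ℝ) (P : Finset (Fin n)) (hx : ∀ i ∈ P, x i = 1) (v : ℕ) :
    cnt x P {(v : ℝ)} = P.card.choose v := by
  unfold cnt
  rw [← Finset.card_powersetCard]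
  congr 1
  ext T
  rw [Finset.mem_filter, Finset.mem_powerset, Finset.mem_singleton, Finset.mem_powersetCard]
  constructor
  · rintro ⟨hT, hs⟩
    refine ⟨hT, ?_⟩
    rw [Finset.sum_congr rfl (fun i hi => hx i (hT hi)), Finset.sum_const, nsmul_eq_mul,
      mul_one] at hs
    exact_mod_cast hs
  · rintro ⟨hT, hs⟩
    refine ⟨hT, ?_⟩
    rw [Finset.sum_congr rfl (fun i hi => hx i (hT hi)), Finset.sum_const, nsmul_eq_mul,
      mul_one, hs]

/-- the vector with `2k-1` entries `1`, one entry `-(k-1)` and zeros -/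
theorem lower_second (n k r : ℕ) (hrk : r + k = n + 1) (hk : 1 ≤ k) (hkn : 2 * k ≤ n) :
    ∃ x : Fin n → ℝ, Admissible n r x ∧
      Z n x = 2 ^ (n - 2 * k) * (1 + (2 * k - 1).choose k) := by
  classical
  obtain ⟨R, _, hR⟩ := Finset.exists_subset_card_eq
    (show 2 * k ≤ (Finset.univ : Finset (Fin n)).card by simp; omega)
  obtain ⟨q, hq⟩ : R.Nonempty := Finset.card_pos.mp (by omega)
  set P := R.erase q with hP
  have hqP : q ∉ P := Finset.notMem_erase _ _
  have hPR : insert q P = R := Finset.insert_erase hq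
  have hPc : P.card = 2 * k - 1 := by rw [hP, Finset.card_erase_of_mem hq, hR]
  set x : Fin n → ℝ := fun i => if i ∈ P then 1 else if i = q then -((k - 1 : ℕ) : ℝ) else 0
    with hx
  have hx1 : ∀ i ∈ P, x i = 1 := fun i hi => by simp only [hx]; rw [if_pos hi]
  have hxq : x q = -((k - 1 : ℕ) : ℝ) := by simp only [hx]; rw [if_neg hqP]; simp
  have hx0 : ∀ i, i ∉ R → x i = 0 := by
    intro i hi
    simp only [hx]
    rw [if_neg (fun h => hi (Finset.mem_of_mem_erase h)), if_neg]
    rintro rfl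
    exact hi hq
  refine ⟨x, ?_, ?_⟩
  · intro S hS h0
    have hSR : ∑ i ∈ S ∩ R, x i = 0 := by
      have h1 := Finset.sum_inter_add_sum_sdiff S R x
      have h2 : ∑ i ∈ S \ R, x i = 0 :=
        Finset.sum_eq_zero (fun i hi => hx0 i (Finset.mem_sdiff.mp hi).2)
      linarith
    have hcR : (S ∩ R).card + (S \ R).card = S.card := by
      rw [add_comm]; exact Finset.card_sdiff_add_card_inter S R
    have hcO : (S \ R).card ≤ n - 2 * k := by
      have h1 : S \ R ⊆ Finset.univ \ R := Finset.sdiff_subset_sdiff (Finset.subset_univ _)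
        (Finset.Subset.refl _)
      have h2 := Finset.card_le_card h1
      rw [Finset.card_sdiff_of_subset (Finset.subset_univ _), Finset.card_univ,
        Fintype.card_fin, hR] at h2
      exact h2
    have hSP : ∑ i ∈ S ∩ P, x i = ((S ∩ P).card : ℝ) := by
      rw [Finset.sum_congr rfl (fun i hi => hx1 i (Finset.mem_inter.mp hi).2), Finset.sum_const,
        nsmul_eq_mul, mul_one]
    by_cases hqS : q ∈ S
    · have h1 : S ∩ R = insert q (S ∩ P) := by
        rw [← hPR, Finset.inter_insert_of_mem hqS]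
      have h2 : q ∉ S ∩ P := fun h => hqP (Finset.mem_inter.mp h).2
      rw [h1, Finset.sum_insert h2, hxq, hSP] at hSR
      rw [h1, Finset.card_insert_of_notMem h2] at hcR
      have h3 : ((S ∩ P).card : ℝ) = ((k - 1 : ℕ) : ℝ) := by linarith
      have h4 : (S ∩ P).card = k - 1 := by exact_mod_cast h3
      omega
    · have h1 : S ∩ R = S ∩ P := by
        rw [← hPR, Finset.inter_insert_of_notMem hqS]
      rw [h1, hSP] at hSR
      rw [h1] at hcR
      have h4 : (S ∩ P).card = 0 := by exact_mod_cast hSR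
      omega
  · rw [Z_eq_cnt]
    set O : Finset (Fin n) := Finset.univ \ R with hO
    have hun : R ∪ O = Finset.univ := Finset.union_sdiff_of_subset (Finset.subset_univ _)
    have hOc : O.card = n - 2 * k := by
      rw [hO, Finset.card_sdiff_of_subset (Finset.subset_univ _), Finset.card_univ,
        Fintype.card_fin, hR]
    rw [← hun, cnt_zeros x R O Finset.disjoint_sdiff
      (fun i hi => hx0 i (Finset.mem_sdiff.mp hi).2), hOc, ← hPR, cnt_insert x P q hqP,
      Finset.image_singleton, hxq]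
    have e1 : (0 : ℝ) - -((k - 1 : ℕ) : ℝ) = ((k - 1 : ℕ) : ℝ) := by ring
    have e2 : cnt x P {0} = cnt x P {((0 : ℕ) : ℝ)} := by rw [Nat.cast_zero]
    have e3 : (2 * k - 1).choose (k - 1) = (2 * k - 1).choose k := by
      rw [← Nat.choose_symm (show k ≤ 2 * k - 1 by omega)]
      congr 1
      omega
    rw [e1, e2, cnt_ones x P hx1, cnt_ones x P hx1, hPc, Nat.choose_zero_right, e3]

/-- `(h + 1/3) lam(h)^2` is decreasing -/
theorem lam_sq_anti : Antitone (fun h : ℕ => ((h : ℝ) + 1 / 3) * lam h ^ 2) := by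
  apply antitone_nat_of_succ_le
  intro h
  have h0 := lam_pos h
  have h1 := lam_succ' h
  change ((h + 1 : ℕ) + 1 / 3 : ℝ) * lam (h + 1) ^ 2 ≤ ((h : ℝ) + 1 / 3) * lam h ^ 2
  rw [h1]
  push_cast
  have h2 : ((h : ℝ) + 1 + 1 / 3) * (lam h * ((2 * h + 1) / (2 * h + 2))) ^ 2 =
      lam h ^ 2 * (((h : ℝ) + 4 / 3) * (2 * h + 1) ^ 2 / (4 * (h + 1) ^ 2)) := by
    field_simp
    ring
  rw [h2]
  have h3 : ((h : ℝ) + 4 / 3) * (2 * h + 1) ^ 2 / (4 * (h + 1) ^ 2) ≤ h + 1 / 3 := by
    rw [div_le_iff₀ (by positivity)]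
    nlinarith [(Nat.cast_nonneg h : (0 : ℝ) ≤ h)]
  have h4 : 0 ≤ lam h ^ 2 := by positivity
  nlinarith

theorem lam_le_half (k : ℕ) : lam (4 * k + 1) ≤ 1 / 2 * lam k := by
  have h1 := lam_sq_anti (show k ≤ 4 * k + 1 by omega)
  simp only at h1
  push_cast at h1
  have h2 := lam_pos k
  have h3 := lam_pos (4 * k + 1)
  have hk : (0 : ℝ) ≤ k := Nat.cast_nonneg k
  have h4 : lam (4 * k + 1) ^ 2 ≤ (1 / 2 * lam k) ^ 2 := by
    have h5 : (4 * ((k : ℝ) + 1 / 3)) * lam (4 * k + 1) ^ 2 ≤
        (4 * ((k : ℝ) + 1 / 3)) * (1 / 2 * lam k) ^ 2 := by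
      calc (4 * ((k : ℝ) + 1 / 3)) * lam (4 * k + 1) ^ 2 =
            (4 * k + 1 + 1 / 3) * lam (4 * k + 1) ^ 2 := by ring
        _ ≤ ((k : ℝ) + 1 / 3) * lam k ^ 2 := h1
        _ = _ := by ring
    exact le_of_mul_le_mul_left h5 (by positivity)
  exact le_of_sq_le_sq h4 (by positivity)

theorem middle_le_second (n k : ℕ) (hk : 1 ≤ k) (h : 8 * k + 1 ≤ n) :
    n.choose (n / 2) ≤ 2 ^ (n - 2 * k) * (1 + (2 * k - 1).choose k) := by
  have h1 : lam ((n + 1) / 2) ≤ 1 / 2 * lam k :=
    (lam_antitone (show 4 * k + 1 ≤ (n + 1) / 2 by omega)).trans (lam_le_half k)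
  have h2 : (2 : ℝ) ^ n = 4 ^ k * 2 ^ (n - 2 * k) := by
    rw [show (4 : ℝ) = 2 ^ 2 by norm_num, ← pow_mul, ← pow_add]
    congr 1
    omega
  have h3 : (n.choose (n / 2) : ℝ) ≤
      ((2 ^ (n - 2 * k) * (1 + (2 * k - 1).choose k) : ℕ) : ℝ) := by
    rw [middle_eq_lam]
    calc (2 : ℝ) ^ n * lam ((n + 1) / 2) ≤ 2 ^ n * (1 / 2 * lam k) :=
          mul_le_mul_of_nonneg_left h1 (by positivity)
      _ = 2 ^ (n - 2 * k) * (1 / 2 * (lam k * 4 ^ k)) := by rw [h2]; ring
      _ = 2 ^ (n - 2 * k) * ((2 * k - 1).choose k : ℝ) := by rw [lam_four_pow hk]; ring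
      _ ≤ _ := by
          push_cast
          apply mul_le_mul_of_nonneg_left _ (by positivity)
          linarith
  exact_mod_cast h3

/-- Let `r + k = n + 1` with `r, k ≥ 1`. If `r` is odd, or `8k + 1 ≤ n`, or more generally
`2k ≤ n` and `C(n,⌊n/2⌋) ≤ 2^(n-2k) (1 + C(2k-1,k))`, then the maximum of `Z(x)` over
`r`-admissible `x ∈ ℝⁿ` is `max (C(n,⌊n/2⌋), 2^(n-2k) (1 + C(2k-1,k)))` if `2k ≤ n`, and
`C(n,⌊n/2⌋)` if `2k > n`. -/
theorem result (n k r : ℕ) (hrk : r + k = n + 1) (_hr : 1 ≤ r) (hk : 1 ≤ k)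
    (h : Odd r ∨ 8 * k + 1 ≤ n ∨
      (2 * k ≤ n ∧ n.choose (n / 2) ≤ 2 ^ (n - 2 * k) * (1 + (2 * k - 1).choose k))) :
    IsGreatest {z : ℕ | ∃ x : Fin n → ℝ, Admissible n r x ∧ Z n x = z}
      (if 2 * k ≤ n then max (n.choose (n / 2)) (2 ^ (n - 2 * k) * (1 + (2 * k - 1).choose k))
        else n.choose (n / 2)) := by
  have hor : Odd r ∨ (2 * k ≤ n ∧
      n.choose (n / 2) ≤ 2 ^ (n - 2 * k) * (1 + (2 * k - 1).choose k)) := by
    rcases h with h | h | h
    · exact Or.inl h
    · exact Or.inr ⟨by omega, middle_le_second n k hk h⟩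
    · exact Or.inr h
  split_ifs with hkn
  · constructor
    · rcases hor with hodd | ⟨_, hle⟩
      · rcases le_total (n.choose (n / 2)) (2 ^ (n - 2 * k) * (1 + (2 * k - 1).choose k))
          with h | h
        · rw [max_eq_right h]
          exact lower_second n k r hrk hk hkn
        · rw [max_eq_left h]
          exact lower_odd n r hodd
      · rw [max_eq_right hle]
        exact lower_second n k r hrk hk hkn
    · rintro z ⟨x, hx, rfl⟩
      rcases upper_dichotomy n k r hrk hk x hx with h | h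
      · exact h.trans (le_max_left _ _)
      · exact (upper_exact n k _ hkn h).trans (le_max_right _ _)
  · have hodd : Odd r := by
      rcases hor with h | h
      · exact h
      · exact absurd h.1 hkn
    constructor
    · exact lower_odd n r hodd
    · rintro z ⟨x, hx, rfl⟩
      rcases upper_dichotomy n k r hrk hk x hx with h | h
      · exact h
      · exact upper_weak n k _ hk (by omega) h

end Pool.Agent.Results.MP_f5b580_co.AllOddWeights
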