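import Pool.Agent.Lib.H31Y.UF

/-!
MP_f5b580_co: the value of `f(n,r)` for all `1 ≤ r ≤ n`, `n ≥ n0`.
-/

namespace Pool.Agent.Results.MP_f5b580_co.ClosedForm

open Finset

/-- `x` is `r`-admissible: no sum of `r` entries with distinct indices is zero. -/
def Admissible (n r : ℕ) (x : Fin n → ℝ) : Prop :=
  ∀ S : Finset (Fin n), S.card = r → ∑ i ∈ S, x i ≠ 0

/-- `Z(x)`: the number of index sets with sum zero (the empty set is counted). -/
noncomputable def Z (n : ℕ) (x : Fin n → ℝ) : ℕ :=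
  Nat.card {B : Finset (Fin n) // ∑ i ∈ B, x i = 0}

/-- `∑_j C(a, p j + s) C(b, j)` -/
def lat (p a b s : ℕ) : ℕ := ∑ j ∈ range (b + 1), a.choose (p * j + s) * b.choose j

/-- `V = 2^(n-2k) (1 + C(2k-1,k))`, `k = n - r + 1` (`0` if `2k > n`) -/
def V (n r : ℕ) : ℕ :=
  if 2 * (n - r + 1) ≤ n then
    2 ^ (n - 2 * (n - r + 1)) * (1 + (2 * (n - r + 1) - 1).choose (n - r + 1))
  else 0

/-- the lattice value for even `r` prime to `3` -/
def A2 (n r : ℕ) : ℕ :=
  if r % 3 = 2 then 2 * lat 2 (n - 1 - (n - 1) / 3) ((n - 1) / 3) 0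
  else lat 2 (n - (n - 2) / 3) ((n - 2) / 3) 1

/-- the lattice value for `r ≡ 6 (mod 12)` -/
def A3 (n : ℕ) : ℕ :=
  2 * (lat 3 (n - 1 - n / 4) (n / 4 - 1) 0 + lat 3 (n - 1 - n / 4) (n / 4 - 1) 2)

/-- the lattice value for `12 ∣ r`, `5 ∤ r` -/
def A4 (n r : ℕ) : ℕ :=
  if r % 5 = 1 then
    let b := (n - 7) / 5
    let a := n - 3 - b
    lat 4 a b 0 + 2 * lat 4 a b 1 + 2 * lat 4 a b 2 + 2 * lat 4 a b 3 + lat 4 a b 4
  else if r % 5 = 2 then
    let b := (n - 9) / 5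
    let a := n - 3 - b
    lat 4 a b 0 + 3 * lat 4 a b 2 + 3 * lat 4 a b 4 + lat 4 a b 6
  else if r % 5 = 3 then
    let b := (n - 6) / 5
    let a := n - 3 - b
    lat 4 a b 0 + 3 * lat 4 a b 1 + 3 * lat 4 a b 2 + lat 4 a b 3
  else
    let b := (n - 8) / 5
    let a := n - 3 - b
    lat 4 a b 0 + lat 4 a b 1 + 2 * lat 4 a b 2 + 2 * lat 4 a b 3 + lat 4 a b 4 + lat 4 a b 5

/-- the value with one or two large entries -/
def H (n r : ℕ) : ℕ :=
  if 3 * r < n ∧ n % 2 = 1 then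
    2 ^ (r - 1) * (2 * (n - r - 1).choose ((n - r - 1) / 2) + 2)
  else if 3 * r < n then 2 ^ (r - 1) * ((n - r).choose ((n - r) / 2) + (n - r))
  else if n = 3 * r then 2 ^ (r - 1) * (1 + (2 * r).choose r)
  else if 2 * r + 3 ≤ n then 2 ^ (n - 2 * r) * (1 + (2 * r - 1).choose r)
  else if n + 3 ≤ 2 * r ∧ 3 * r < 2 * n then
    2 ^ (2 * r - n - 1) * ((2 * (n - r)).choose (n - r) + 2 * (n - r))
  else if n + 3 ≤ 2 * r ∧ 3 * r = 2 * n then
    2 ^ (2 * r - n - 1) * ((2 * (n - r)).choose (n - r) + 1)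
  else if n + 3 ≤ 2 * r ∨ ¬ 4 ∣ r then 0
  else if n = 2 * r + 2 then 2 * (2 * r).choose r + 2 * (2 * r).choose (r / 2 - 2)
  else if n = 2 * r + 1 then (2 * r).choose r + (2 * r).choose (r / 2)
  else if n = 2 * r then 2 * (2 * r - 2).choose (r - 1) + 2 * (2 * r - 2).choose (r / 2 - 1)
  else if n + 1 = 2 * r then (2 * r - 2).choose (r - 1) + (2 * r - 2).choose (r / 2 - 1)
  else 2 * (2 * r - 4).choose (r - 2) + 2 * (2 * r - 4).choose (r / 2 - 2)

/-- the closed form -/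
def F (n r : ℕ) : ℕ :=
  if r % 2 = 1 then max (n.choose (n / 2)) (V n r)
  else if r % 3 ≠ 0 then max (V n r) (A2 n r)
  else if r % 4 = 2 then max (V n r) (max (H n r) (A3 n))
  else if r % 5 ≠ 0 then max (V n r) (max (H n r) (A4 n r))
  else max (V n r) (H n r)

/-- reflection -/
theorem cf_refl (a b s s' : ℕ) (h : a = 2 * b + s + s') :
    ∑ j ∈ range (b + 1), a.choose (2 * j + s) * b.choose j =
      ∑ j ∈ range (b + 1), a.choose (2 * j + s') * b.choose j := by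
  rw [← Finset.sum_range_reflect]
  refine Finset.sum_congr rfl fun j hj => ?_
  rw [Finset.mem_range] at hj
  have h1 : b + 1 - 1 - j = b - j := by omega
  rw [h1, Nat.choose_symm (show j ≤ b by omega)]
  congr 1
  rw [← Nat.choose_symm (show 2 * j + s' ≤ a by omega)]
  congr 1
  omega

/-- Pascal in the second argument -/
theorem cf_pascal (a b s : ℕ) :
    ∑ j ∈ range (b + 2), a.choose (2 * j + s) * (b + 1).choose j =
      (∑ j ∈ range (b + 1), a.choose (2 * j + s) * b.choose j) +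
        ∑ j ∈ range (b + 1), a.choose (2 * j + (s + 2)) * b.choose j := by
  rw [Finset.sum_range_succ']
  have h1 : ∀ j ∈ range (b + 1), a.choose (2 * (j + 1) + s) * (b + 1).choose (j + 1) =
      a.choose (2 * j + (s + 2)) * b.choose j + a.choose (2 * (j + 1) + s) * b.choose (j + 1) := by
    intro j _
    rw [Nat.choose_succ_succ', Nat.mul_add]
    congr 3
    ring
  rw [Finset.sum_congr rfl h1, Finset.sum_add_distrib]
  have h2 : (∑ j ∈ range (b + 1), a.choose (2 * (j + 1) + s) * b.choose (j + 1)) +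
      a.choose (2 * 0 + s) * (b + 1).choose 0 =
      ∑ j ∈ range (b + 1), a.choose (2 * j + s) * b.choose j := by
    rw [Finset.sum_range_succ, Nat.choose_eq_zero_of_lt (show b < b + 1 by omega), mul_zero, add_zero]
    rw [Finset.sum_range_succ' (fun j => a.choose (2 * j + s) * b.choose j) b]
    simp
  omega

/-- the two forms of the lattice value agree -/
theorem A2_eq (n r : ℕ) (hn : 3 ≤ n) (h3 : r % 3 ≠ 0) : A2 n r = H31Z.Aval n r := by
  unfold A2
  unfold H31Z.Aval H31Z.lat lat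
  obtain ⟨q, hq⟩ : ∃ q, q = n / 3 := ⟨_, rfl⟩
  have hq1 : 1 ≤ q := by omega
  obtain ⟨b, rfl⟩ : ∃ b, q = b + 1 := ⟨q - 1, by omega⟩
  rcases Nat.lt_or_ge (r % 3) 2 with h | h
  · have h1 : r % 3 = 1 := by omega
    rw [if_neg (by omega), if_neg (by omega), if_pos h1]
    rcases (by omega : n % 3 = 0 ∨ n % 3 = 1 ∨ n % 3 = 2) with h2 | h2 | h2
    · rw [if_pos h2, ← hq]
      have e1 : (n - 2) / 3 = b := by omega
      have e2 : n - b = 2 * (b + 1) + 1 := by omega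
      rw [e1, e2]
      rfl
    · rw [if_neg (by omega), if_pos h2, ← hq]
      have e1 : (n - 2) / 3 = b := by omega
      have e2 : n - b = 2 * (b + 1) + 1 + 1 := by omega
      rw [e1, e2, cf_pascal (2 * (b + 1) + 1) b 0]
      have e3 : ∀ j ∈ range (b + 1), (2 * (b + 1) + 1 + 1).choose (2 * j + 1) * b.choose j =
          (2 * (b + 1) + 1).choose (2 * j + 0) * b.choose j +
            (2 * (b + 1) + 1).choose (2 * j + 1) * b.choose j := by
        intro j _
        rw [Nat.choose_succ_succ', Nat.add_mul]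
        rfl
      rw [Finset.sum_congr rfl e3, Finset.sum_add_distrib]
      congr 1
      exact cf_refl _ _ _ _ (by ring)
    · rw [if_neg (by omega), if_neg (by omega), ← hq]
      have e1 : (n - 2) / 3 = b + 1 := by omega
      have e2 : n - (b + 1) = 2 * (b + 1) + 2 := by omega
      rw [e1, e2]
  · have h1 : r % 3 = 2 := by omega
    rw [if_pos h1, if_pos h1]
    rcases (by omega : n % 3 = 0 ∨ n % 3 = 1 ∨ n % 3 = 2) with h2 | h2 | h2
    · rw [if_pos h2, ← hq]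
      have e1 : (n - 1) / 3 = b := by omega
      have e2 : n - 1 - b = 2 * (b + 1) := by omega
      rw [e1, e2, cf_pascal (2 * (b + 1)) b 0, two_mul (∑ j ∈ range (b + 1), _)]
      congr 1
      exact cf_refl _ _ _ _ (by ring)
    · rw [if_neg (by omega), if_pos h2, ← hq]
      have e1 : (n - 1) / 3 = b + 1 := by omega
      have e2 : n - 1 - (b + 1) = 2 * (b + 1) := by omega
      rw [e1, e2]
    · rw [if_neg (by omega), if_neg (by omega), ← hq]
      have e1 : (n - 1) / 3 = b + 1 := by omega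
      have e2 : n - 1 - (b + 1) = 2 * (b + 1) + 1 := by omega
      rw [e1, e2]

theorem F_eq (n r : ℕ) (hn : 100 ≤ n) : F n r = H31Y.Phi n r := by
  have hV : V n r = H31Z.Vval n r := rfl
  have hH : r % 2 = 0 → r % 3 = 0 → H n r = H31Y.Hval n r := by
    intro h2 h3
    unfold H H31Y.Hval
    by_cases c1 : 3 * r < n
    · by_cases c2 : n % 2 = 1
      · rw [if_pos ⟨c1, c2⟩, if_pos c1, if_pos c2]
      · rw [if_neg (fun h => c2 h.2), if_pos c1, if_pos c1, if_neg c2]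
    rw [if_neg (fun h => c1 h.1), if_neg c1, if_neg c1]
    by_cases c3 : n = 3 * r
    · rw [if_pos c3, if_pos c3]
    rw [if_neg c3, if_neg c3]
    by_cases c4 : 2 * r + 3 ≤ n
    · rw [if_pos c4, if_pos c4]
    rw [if_neg c4, if_neg c4]
    by_cases c5 : 2 * r ≤ n + 2
    · rw [if_pos c5, if_neg (show ¬(n + 3 ≤ 2 * r ∧ 3 * r < 2 * n) by omega),
        if_neg (show ¬(n + 3 ≤ 2 * r ∧ 3 * r = 2 * n) by omega)]
      by_cases c6 : r % 4 ≠ 0
      · rw [if_pos c6, if_pos (show n + 3 ≤ 2 * r ∨ ¬ 4 ∣ r by omega)]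
      · rw [if_neg c6, if_neg (show ¬(n + 3 ≤ 2 * r ∨ ¬ 4 ∣ r) by omega)]
    · rw [if_neg c5]
      by_cases c7 : 3 * r < 2 * n
      · rw [if_pos c7, if_pos (show n + 3 ≤ 2 * r ∧ 3 * r < 2 * n by omega)]
      rw [if_neg c7, if_neg (show ¬(n + 3 ≤ 2 * r ∧ 3 * r < 2 * n) by omega)]
      by_cases c8 : 3 * r = 2 * n
      · rw [if_pos c8, if_pos (show n + 3 ≤ 2 * r ∧ 3 * r = 2 * n by omega)]
      · rw [if_neg c8, if_neg (show ¬(n + 3 ≤ 2 * r ∧ 3 * r = 2 * n) by omega),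
          if_pos (show n + 3 ≤ 2 * r ∨ ¬ 4 ∣ r by omega)]
  have hA3 : A3 n = H31Y.A3val n := rfl
  have hA4 : A4 n r = H31Y.A4val n r := by
    unfold A4 H31Y.A4val H31Y.uE
    split_ifs <;> first | rfl | omega
  unfold F H31Y.Phi H31Y.Lval
  rw [hV, hA3, hA4]
  by_cases h1 : r % 2 = 1
  · rw [if_pos h1, if_pos h1]
  rw [if_neg h1, if_neg h1]
  by_cases h2 : r % 3 ≠ 0
  · rw [if_pos h2, if_pos h2, A2_eq n r (by omega) h2]
  rw [if_neg h2, if_neg h2, hH (by omega) (by omega)]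
  by_cases h3 : r % 4 = 2
  · rw [if_pos h3, if_pos h3]
  rw [if_neg h3, if_neg h3]
  by_cases h4 : r % 5 = 0
  · rw [if_neg (not_not.2 h4), if_pos h4, max_eq_left (Nat.zero_le (H31Y.Hval n r))]
  · rw [if_pos h4, if_neg h4]

/-- There is `n0` such that for all `n ≥ n0` and `1 ≤ r ≤ n` the maximum of `Z(x)` over the
`r`-admissible `x ∈ ℝⁿ` is `F n r`. -/
theorem result : ∃ n0 : ℕ, ∀ n r : ℕ, n0 ≤ n → 1 ≤ r → r ≤ n →
    IsGreatest {z : ℕ | ∃ x : Fin n → ℝ, Admissible n r x ∧ Z n x = z} (F n r) := by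
  obtain ⟨n0, h⟩ := H31Y.UF_main
  refine ⟨max n0 100, fun n r hn hr hrn => ?_⟩
  obtain ⟨h1, x, hx, hx2⟩ := h n r ((le_max_left _ _).trans hn) hr hrn
  rw [F_eq n r ((le_max_right _ _).trans hn)]
  refine ⟨⟨x, hx, hx2⟩, ?_⟩
  rintro z ⟨x, hx, rfl⟩
  exact h1 x hx

end Pool.Agent.Results.MP_f5b580_co.ClosedForm
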