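import Mathlib
import Pool.Agent.Helper14.ZeroSum.Count

namespace Pool.Agent.Results.MP_f5b580_co.NextToLast

open Finset Pool.Agent.Helper14.ZeroSum

/-- `x` is `r`-admissible: no sum of `r` entries with distinct indices is zero. -/
def Admissible (n r : ℕ) (x : Fin n → ℝ) : Prop :=
  ∀ S : Finset (Fin n), S.card = r → ∑ i ∈ S, x i ≠ 0

/-- `Z(x)`: the number of index sets `B` (the empty one included) with `∑_{i ∈ B} x_i = 0`. -/
noncomputable def Z (n : ℕ) (x : Fin n → ℝ) : ℕ :=
  Nat.card {B : Finset (Fin n) // ∑ i ∈ B, x i = 0}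

theorem Z_eq_cnt (n : ℕ) (x : Fin n → ℝ) : Z n x = cnt x Finset.univ {0} := by
  classical
  unfold Z cnt
  rw [Nat.card_eq_fintype_card, Fintype.card_subtype]
  simp

section
variable {ι : Type*} [DecidableEq ι]

omit [DecidableEq ι] in
theorem cnt_le_pow (y : ι → ℝ) (I : Finset ι) (Λ : Finset ℝ) : cnt y I Λ ≤ 2 ^ I.card := by
  unfold cnt
  exact (Finset.card_filter_le _ _).trans (by rw [Finset.card_powerset])

theorem cnt_add_of_disjoint (y : ι → ℝ) (I : Finset ι) (Λ Λ' : Finset ℝ) (h : Disjoint Λ Λ') :
    cnt y I Λ + cnt y I Λ' = cnt y I (Λ ∪ Λ') := by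
  rw [← cnt_union_inter, Finset.disjoint_iff_inter_eq_empty.mp h, cnt_empty_right, add_zero]

theorem cnt_insert_zero (y : ι → ℝ) (I : Finset ι) (e : ι) (he : e ∉ I) (v : ℝ) :
    cnt y (insert e I) {v} = cnt y I {v} + cnt y I {v - y e} := by
  rw [cnt_insert y I e he, Finset.image_singleton]

/-- two indices with distinct absolute values -/
theorem cnt_le_of_abs_ne (y : ι → ℝ) (I : Finset ι) (i j : ι) (hi : i ∉ insert j I) (hj : j ∉ I)
    (hyi : y i ≠ 0) (hyj : y j ≠ 0) (h1 : y i ≠ y j) (h2 : y i ≠ - y j) :
    cnt y (insert i (insert j I)) {0} ≤ 2 ^ I.card := by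
  classical
  rw [cnt_insert_zero y _ i hi, cnt_insert_zero y _ j hj, cnt_insert_zero y _ j hj]
  have d1 : Disjoint ({(0 : ℝ)} : Finset ℝ) {0 - y j} := by
    rw [Finset.disjoint_singleton]; intro h; apply hyj; linarith
  have d2 : Disjoint ({(0 : ℝ) - y i} : Finset ℝ) {0 - y i - y j} := by
    rw [Finset.disjoint_singleton]; intro h; apply hyj; linarith
  rw [cnt_add_of_disjoint y I _ _ d1, cnt_add_of_disjoint y I _ _ d2, cnt_add_of_disjoint]
  · exact cnt_le_pow _ _ _
  · rw [Finset.disjoint_left]
    intro a ha hb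
    simp only [Finset.mem_union, Finset.mem_singleton] at ha hb
    rcases ha with rfl | rfl <;> rcases hb with hb | hb
    · apply hyi; linarith
    · apply h2; linarith
    · apply h1; linarith
    · apply hyi; linarith

/-- a quarter bound -/
theorem four_mul_cnt_le (y : ι → ℝ) (I : Finset ι) (hy : ∀ i ∈ I, y i ≠ 0)
    (hadm : ∀ B ⊆ I, ∑ i ∈ B, y i = 0 → B.card + 2 ≤ I.card) :
    4 * cnt y I {0} ≤ 2 ^ I.card := by
  classical
  set s := ∑ i ∈ I, y i with hs
  have hs0 : s ≠ 0 := by
    intro h
    have := hadm I (Finset.Subset.refl _) h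
    omega
  have hse : ∀ e ∈ I, s ≠ y e := by
    intro e he h
    have h1 := Finset.add_sum_erase I y he
    have := hadm (I.erase e) (Finset.erase_subset _ _) (by linarith)
    rw [Finset.card_erase_of_mem he] at this
    have := Finset.card_pos.mpr ⟨e, he⟩
    omega
  -- an element different from `-s`
  obtain ⟨e, he, hne⟩ : ∃ e ∈ I, y e ≠ -s := by
    by_contra hcon
    push Not at hcon
    have h1 : s = ∑ _i ∈ I, (-s) := by rw [hs]; exact Finset.sum_congr rfl hcon
    rw [Finset.sum_const, nsmul_eq_mul] at h1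
    have h2 : ((I.card : ℝ) + 1) * s = 0 := by linarith
    rcases mul_eq_zero.mp h2 with h3 | h3
    · have : (0 : ℝ) ≤ I.card := Nat.cast_nonneg _
      linarith
    · exact hs0 h3
  set J := I.erase e with hJ
  have heJ : e ∉ J := Finset.notMem_erase _ _
  have hIJ : insert e J = I := Finset.insert_erase he
  have hcard : I.card = J.card + 1 := by rw [← hIJ, Finset.card_insert_of_notMem heJ]
  have hsum : ∑ i ∈ J, y i = s - y e := by
    have := Finset.add_sum_erase I y he
    linarith
  have hye := hy e he
  have c1 : cnt y I {0} = cnt y J {0} + cnt y J {0 - y e} := by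
    rw [← hIJ]; exact cnt_insert_zero y J e heJ 0
  have c2 : cnt y J {0} = cnt y J {s - y e} := by
    rw [cnt_compl y J 0, hsum]; congr 2; ring
  have c3 : cnt y J {0 - y e} = cnt y J {s} := by
    rw [cnt_compl y J (0 - y e), hsum]; congr 2; ring
  have d1 : Disjoint ({(0 : ℝ)} : Finset ℝ) {0 - y e} := by
    rw [Finset.disjoint_singleton]; intro h; apply hye; linarith
  have d2 : Disjoint ({s - y e} : Finset ℝ) {s} := by
    rw [Finset.disjoint_singleton]; intro h; apply hye; linarith
  have d3 : Disjoint (({(0 : ℝ)} : Finset ℝ) ∪ {0 - y e}) ({s - y e} ∪ {s}) := by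
    rw [Finset.disjoint_left]
    intro a ha hb
    simp only [Finset.mem_union, Finset.mem_singleton] at ha hb
    rcases ha with rfl | rfl <;> rcases hb with hb | hb
    · apply hse e he; linarith
    · exact hs0 hb.symm
    · apply hs0; linarith
    · apply hne; linarith
  have h2 : 2 * cnt y I {0} ≤ 2 ^ J.card := by
    calc 2 * cnt y I {0} = (cnt y J {0} + cnt y J {0 - y e}) +
          (cnt y J {s - y e} + cnt y J {s}) := by rw [← c2, ← c3, c1]; ring
      _ = cnt y J (({0} ∪ {0 - y e}) ∪ ({s - y e} ∪ {s})) := by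
          rw [cnt_add_of_disjoint y J _ _ d1, cnt_add_of_disjoint y J _ _ d2,
            cnt_add_of_disjoint y J _ _ d3]
      _ ≤ _ := cnt_le_pow _ _ _
  rw [hcard, pow_succ]
  omega

end

theorem upper (n : ℕ) (hn : Odd n) (h3 : 3 ≤ n) (x : Fin n → ℝ)
    (hx : Admissible n (n - 1) x) : Z n x ≤ 2 ^ (n - 2) := by
  classical
  rw [Z_eq_cnt]
  set I : Finset (Fin n) := Finset.univ.filter (fun i => x i ≠ 0) with hI
  set O : Finset (Fin n) := Finset.univ.filter (fun i => ¬ (x i ≠ 0)) with hO
  have hdis : Disjoint I O := Finset.disjoint_filter_filter_not _ _ _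
  have hun : I ∪ O = Finset.univ := Finset.filter_union_filter_not_eq _ _
  have hcard : I.card + O.card = n := by
    rw [← Finset.card_union_of_disjoint hdis, hun, Finset.card_univ, Fintype.card_fin]
  have hO0 : ∀ i ∈ O, x i = 0 := fun i hi => not_not.mp (Finset.mem_filter.mp hi).2
  have hI0 : ∀ i ∈ I, x i ≠ 0 := fun i hi => (Finset.mem_filter.mp hi).2
  have hadm : ∀ B ⊆ I, ∑ i ∈ B, x i = 0 → B.card + O.card < n - 1 ∨ n - 1 < B.card := by
    intro B hB hsB
    by_contra hcon
    push Not at hcon
    obtain ⟨T, hTO, hTc⟩ := Finset.exists_subset_card_eq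
      (show (n - 1) - B.card ≤ O.card by omega)
    have hBT : Disjoint B T :=
      Finset.disjoint_of_subset_left hB (Finset.disjoint_of_subset_right hTO hdis)
    apply hx (B ∪ T)
    · rw [Finset.card_union_of_disjoint hBT, hTc]; omega
    · rw [Finset.sum_union hBT, hsB, zero_add]
      exact Finset.sum_eq_zero fun i hi => hO0 i (hTO hi)
  by_cases hcase : O.card = 0 ∧ ∑ i ∈ I, x i = 0
  · -- no zero entry and total sum zero
    obtain ⟨hO00, hsum⟩ := hcase
    rw [Finset.card_eq_zero] at hO00
    have hIu : I = Finset.univ := by rw [← hun, hO00, Finset.union_empty]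
    rw [hIu] at hI0 hsum
    -- two entries with different absolute values
    obtain ⟨i, j, hij, h1, h2⟩ : ∃ i j : Fin n, i ≠ j ∧ x i ≠ x j ∧ x i ≠ - x j := by
      by_contra hcon
      push Not at hcon
      have h0 : (0 : ℕ) < n := by omega
      set a := x ⟨0, h0⟩ with ha
      have ha0 : a ≠ 0 := hI0 _ (Finset.mem_univ _)
      have hall : ∀ i, x i = a ∨ x i = -a := by
        intro i
        by_cases hi : i = ⟨0, h0⟩
        · left; rw [hi]
        · by_cases h : x i = a
          · left; exact h
          · right; exact hcon i ⟨0, h0⟩ hi h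
      have h4 : ∀ i, x i = if x i = a then a else -a := by
        intro i
        split_ifs with h
        · exact h
        · exact (hall i).resolve_left h
      rw [Finset.sum_congr rfl (fun i _ => h4 i), Finset.sum_ite, Finset.sum_const,
        Finset.sum_const, nsmul_eq_mul, nsmul_eq_mul] at hsum
      have h5 := Finset.card_filter_add_card_filter_not (s := (Finset.univ : Finset (Fin n)))
        (fun i => x i = a)
      rw [Finset.card_univ, Fintype.card_fin] at h5
      set p := (Finset.univ.filter (fun i => x i = a)).card with hp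
      set q := (Finset.univ.filter (fun i => ¬ x i = a)).card with hq
      have h6 : ((p : ℝ) - q) * a = 0 := by linarith
      rcases mul_eq_zero.mp h6 with h7 | h7
      · have h8 : p = q := by
          have : (p : ℝ) = q := by linarith
          exact_mod_cast this
        obtain ⟨m, hm⟩ := hn
        omega
      · exact ha0 h7
    set K := (Finset.univ.erase i).erase j with hK
    have hjmem : j ∈ (Finset.univ : Finset (Fin n)).erase i :=
      Finset.mem_erase.mpr ⟨hij.symm, Finset.mem_univ _⟩
    have e1 : insert j K = Finset.univ.erase i := Finset.insert_erase hjmem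
    have e2 : insert i (insert j K) = Finset.univ := by
      rw [e1]; exact Finset.insert_erase (Finset.mem_univ _)
    have hKc : K.card = n - 2 := by
      rw [hK, Finset.card_erase_of_mem hjmem, Finset.card_erase_of_mem (Finset.mem_univ _),
        Finset.card_univ, Fintype.card_fin]
      omega
    have := cnt_le_of_abs_ne x K i j (by rw [e1]; exact Finset.notMem_erase _ _)
      (Finset.notMem_erase _ _) (hI0 i (Finset.mem_univ _)) (hI0 j (Finset.mem_univ _)) h1 h2
    rwa [e2, hKc] at this
  · -- all zero-sum sets avoid at least two elements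
    have hadm2 : ∀ B ⊆ I, ∑ i ∈ B, x i = 0 → B.card + 2 ≤ I.card := by
      intro B hB hsB
      have hBI : B.card ≤ I.card := Finset.card_le_card hB
      rcases hadm B hB hsB with h | h
      · omega
      · exfalso
        apply hcase
        have hBn : B.card = n := by omega
        have hO00 : O.card = 0 := by omega
        refine ⟨hO00, ?_⟩
        have : B = I := Finset.eq_of_subset_of_card_le hB (by omega)
        rw [← this]; exact hsB
    have h4 := four_mul_cnt_le x I hI0 hadm2
    rw [← hun, cnt_zeros x I O hdis hO0]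
    have hpow : 2 ^ O.card * 2 ^ I.card = 4 * 2 ^ (n - 2) := by
      rw [← pow_add, show O.card + I.card = (n - 2) + 2 by omega, pow_add]
      ring
    have h5 : 4 * (2 ^ O.card * cnt x I {0}) ≤ 4 * 2 ^ (n - 2) := by
      calc 4 * (2 ^ O.card * cnt x I {0}) = 2 ^ O.card * (4 * cnt x I {0}) := by ring
        _ ≤ 2 ^ O.card * 2 ^ I.card := Nat.mul_le_mul_left _ h4
        _ = _ := hpow
    omega

/-- the vector `(1, 1, 0, …, 0)` -/
theorem lower (n : ℕ) (h3 : 3 ≤ n) :
    ∃ x : Fin n → ℝ, Admissible n (n - 1) x ∧ Z n x = 2 ^ (n - 2) := by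
  classical
  set a : Fin n := ⟨0, by omega⟩ with ha
  set b : Fin n := ⟨1, by omega⟩ with hb
  have hab : a ≠ b := by
    intro h
    rw [ha, hb, Fin.mk.injEq] at h
    omega
  set x : Fin n → ℝ := fun i => if i ∈ ({a, b} : Finset (Fin n)) then 1 else 0 with hx
  have hsum : ∀ B : Finset (Fin n), ∑ i ∈ B, x i = ((B ∩ {a, b}).card : ℝ) := by
    intro B
    simp only [hx]
    rw [Finset.sum_ite_mem, Finset.sum_const, nsmul_eq_mul, mul_one]
  refine ⟨x, ?_, ?_⟩
  · intro S hS h0
    rw [hsum] at h0
    have h1 : (S ∩ {a, b}).card = 0 := by exact_mod_cast h0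
    rw [Finset.card_eq_zero] at h1
    have h2 : S ⊆ Finset.univ \ {a, b} := by
      intro i hi
      rw [Finset.mem_sdiff]
      refine ⟨Finset.mem_univ _, fun h => ?_⟩
      have : i ∈ S ∩ {a, b} := Finset.mem_inter.mpr ⟨hi, h⟩
      rw [h1] at this
      simp at this
    have h3' := Finset.card_le_card h2
    rw [Finset.card_sdiff_of_subset (Finset.subset_univ _), Finset.card_univ, Fintype.card_fin,
      Finset.card_pair hab, hS] at h3'
    omega
  · rw [Z_eq_cnt]
    set O : Finset (Fin n) := Finset.univ \ {a, b} with hO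
    have hun : ({a, b} : Finset (Fin n)) ∪ O = Finset.univ :=
      Finset.union_sdiff_of_subset (Finset.subset_univ _)
    have hO0 : ∀ i ∈ O, x i = 0 := by
      intro i hi
      rw [hO, Finset.mem_sdiff] at hi
      simp only [hx]
      rw [if_neg hi.2]
    rw [← hun, cnt_zeros x {a, b} O Finset.disjoint_sdiff hO0]
    have hOc : O.card = n - 2 := by
      rw [hO, Finset.card_sdiff_of_subset (Finset.subset_univ _), Finset.card_univ,
        Fintype.card_fin, Finset.card_pair hab]
    have h1 : cnt x {a, b} {0} = 1 := by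
      unfold cnt
      rw [Finset.card_eq_one]
      refine ⟨∅, ?_⟩
      ext T
      simp only [Finset.mem_filter, Finset.mem_powerset, Finset.mem_singleton]
      constructor
      · rintro ⟨hT, hs⟩
        rw [hsum, Finset.inter_eq_left.mpr hT] at hs
        have : T.card = 0 := by exact_mod_cast hs
        exact Finset.card_eq_zero.mp this
      · rintro rfl
        simp
    rw [hOc, h1, mul_one]

/-- For every odd `n ≥ 3`, the maximum of `Z(x)` over `(n-1)`-admissible `x ∈ ℝⁿ` is
`2^(n-2)`. -/
theorem result (n : ℕ) (hn : Odd n) (h3 : 3 ≤ n) :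
    IsGreatest {z : ℕ | ∃ x : Fin n → ℝ, Admissible n (n - 1) x ∧ Z n x = z} (2 ^ (n - 2)) := by
  constructor
  · exact lower n h3
  · rintro z ⟨x, hx, rfl⟩
    exact upper n hn h3 x hx

end Pool.Agent.Results.MP_f5b580_co.NextToLast
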